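import Pool.Agent.H14.GI.Big.Desc

/-!
MP_adb684_al: the largest constituent of an induced representation, of multiplicity one, does not
stay irreducible modulo all primes, unless it is the whole induced representation.
-/

set_option autoImplicit false

open Matrix NumberField

namespace Pool.Agent.Results.MP_adb684_al.LargestConstituent

open Pool.Agent.H14.GI

/-- The representation `ρ` over the ring of integers of `F` becomes reducible in characteristic
`q`: over every algebraically closed field `k` of characteristic `q` and for every ring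
homomorphism from the ring of integers to `k`. -/
def ReducibleMod {G : Type} [Group G] {F : Type} [Field F] {n : ℕ}
    (ρ : G →* Matrix (Fin n) (Fin n) (𝓞 F)) (q : ℕ) : Prop :=
  ∀ (k : Type) [Field k] [IsAlgClosed k] [CharP k q] (φ : 𝓞 F →+* k), ¬ IrredVia φ ρ

/-- `T` intertwines the restriction of `τ` to the subgroup `H` with the representation `θ`. -/
def InterH {G : Type} [Group G] {H : Subgroup G} {d t : ℕ} (τ : G →* Matrix (Fin d) (Fin d) ℂ)
    (θ : H →* Matrix (Fin t) (Fin t) ℂ) (T : Matrix (Fin d) (Fin t) ℂ) : Prop :=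
  ∀ h : H, τ h * T = T * θ h

theorem result (G : Type) [Group G] [Finite G] (F : Type) [Field F] [NumberField F]
    (σ : F →+* ℂ) (H : Subgroup G) (n t : ℕ) (ρ : G →* Matrix (Fin n) (Fin n) (𝓞 F))
    (θ : H →* Matrix (Fin t) (Fin t) (𝓞 F))
    (hρ : IrredVia (σ.comp (algebraMap (𝓞 F) F)) ρ)
    (hθ : IrredVia (σ.comp (algebraMap (𝓞 F) F)) θ)
    (T₀ : Matrix (Fin n) (Fin t) ℂ) (hT0 : T₀ ≠ 0)
    (hT₀ : InterH (mapRep (σ.comp (algebraMap (𝓞 F) F)) ρ)
      (mapRep (σ.comp (algebraMap (𝓞 F) F)) θ) T₀)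
    (hmult : ∀ T : Matrix (Fin n) (Fin t) ℂ, InterH (mapRep (σ.comp (algebraMap (𝓞 F) F)) ρ)
      (mapRep (σ.comp (algebraMap (𝓞 F) F)) θ) T → ∃ c : ℂ, T = c • T₀)
    (hmax : ∀ (d : ℕ) (τ : G →* Matrix (Fin d) (Fin d) ℂ), n ≤ d → Irr τ →
      (∃ T : Matrix (Fin d) (Fin t) ℂ, T ≠ 0 ∧
        InterH τ (mapRep (σ.comp (algebraMap (𝓞 F) F)) θ) T) →
      ∃ S : Matrix (Fin d) (Fin n) ℂ, S ≠ 0 ∧
        ∀ g, τ g * S = S * mapRep (σ.comp (algebraMap (𝓞 F) F)) ρ g) :
    n = H.index * t ∨ ∃ q : ℕ, q.Prime ∧ q ∣ H.index * t ∧ ReducibleMod ρ q :=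
  largest σ H ρ θ hρ hθ T₀ hT0 hT₀ hmult hmax

end Pool.Agent.Results.MP_adb684_al.LargestConstituent
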