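import Pool.Agent.H14.GI.Main

/-!
MP_adb684_al: a representation with a matrix coefficient of two semi-invariant vectors of a
subgroup (for a character of order a power of a prime `q`) whose values outside the subgroup are
in `a * {roots of unity of order a power of q}` does not stay irreducible modulo all primes.
-/

set_option autoImplicit false

open Matrix NumberField

namespace Pool.Agent.Results.MP_adb684_al.RootValues

open Pool.Agent.H14.GI

/-- The representation `ρ` over the ring of integers of `F` becomes reducible in characteristic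
`p`: over every algebraically closed field `k` of characteristic `p` and for every ring
homomorphism from the ring of integers to `k`. -/
def ReducibleMod {G : Type} [Group G] {F : Type} [Field F] {n : ℕ}
    (ρ : G →* Matrix (Fin n) (Fin n) (𝓞 F)) (p : ℕ) : Prop :=
  ∀ (k : Type) [Field k] [IsAlgClosed k] [CharP k p] (φ : 𝓞 F →+* k), ¬ IrredVia φ ρ

theorem result (G : Type) [Group G] [Finite G] (F : Type) [Field F] [NumberField F]
    (σ : F →+* ℂ) (n : ℕ) (hn : 2 ≤ n) (ρ : G →* Matrix (Fin n) (Fin n) (𝓞 F))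
    (hρ : IrredVia (σ.comp (algebraMap (𝓞 F) F)) ρ) (H : Subgroup G) (q e : ℕ) (hq : q.Prime)
    (l : H → ℂ) (hl : ∀ h, l h ^ q ^ e = 1) (v w : Fin n → ℂ) (hv0 : v ≠ 0) (hw0 : w ≠ 0)
    (hv : ∀ h : H, (ρ h).map (σ.comp (algebraMap (𝓞 F) F)) *ᵥ v = l h • v)
    (hw : ∀ h : H, w ᵥ* (ρ h).map (σ.comp (algebraMap (𝓞 F) F)) = l h • w) (a : ℂ)
    (hc : ∀ g, g ∉ H → ∃ ζ : ℂ, ζ ^ q ^ e = 1 ∧
      w ⬝ᵥ ((ρ g).map (σ.comp (algebraMap (𝓞 F) F)) *ᵥ v) = a * ζ) :
    ∃ p : ℕ, p.Prime ∧ p ∣ q * H.index ∧ ReducibleMod ρ p := by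
  obtain ⟨p, h1, h2, h3⟩ := complex_root_values ρ σ hρ hn H q e hq l hl v w hv hw hv0 hw0 a hc
  refine ⟨p, h1, ?_, h3⟩
  rcases h2 with rfl | h2
  · exact dvd_mul_right _ _
  · exact h2.mul_left _

end Pool.Agent.Results.MP_adb684_al.RootValues
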