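import Pool.Agent.H14.GI.Main

/-!
MP_adb684_al: a representation with a matrix coefficient of two fixed vectors of a subgroup which
takes at most two values outside the subgroup does not stay irreducible modulo all primes.
-/

set_option autoImplicit false

open Matrix NumberField

namespace Pool.Agent.Results.MP_adb684_al.TwoValues

open Pool.Agent.H14.GI

/-- The representation `ρ` over the ring of integers of `F` becomes reducible in characteristic
`q`: over every algebraically closed field `k` of characteristic `q` and for every ring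
homomorphism from the ring of integers to `k`. -/
def ReducibleMod {G : Type} [Group G] {F : Type} [Field F] {n : ℕ}
    (ρ : G →* Matrix (Fin n) (Fin n) (𝓞 F)) (q : ℕ) : Prop :=
  ∀ (k : Type) [Field k] [IsAlgClosed k] [CharP k q] (φ : 𝓞 F →+* k), ¬ IrredVia φ ρ

theorem result (G : Type) [Group G] [Finite G] (F : Type) [Field F] [NumberField F]
    (σ : F →+* ℂ) (n : ℕ) (hn : 2 ≤ n) (ρ : G →* Matrix (Fin n) (Fin n) (𝓞 F))
    (hρ : IrredVia (σ.comp (algebraMap (𝓞 F) F)) ρ) (H : Subgroup G)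
    (v w : Fin n → ℂ) (hv0 : v ≠ 0) (hw0 : w ≠ 0)
    (hv : ∀ h ∈ H, (ρ h).map (σ.comp (algebraMap (𝓞 F) F)) *ᵥ v = v)
    (hw : ∀ h ∈ H, w ᵥ* (ρ h).map (σ.comp (algebraMap (𝓞 F) F)) = w) (c₁ c₂ : ℂ)
    (hc : ∀ g, g ∉ H → w ⬝ᵥ ((ρ g).map (σ.comp (algebraMap (𝓞 F) F)) *ᵥ v) = c₁ ∨
      w ⬝ᵥ ((ρ g).map (σ.comp (algebraMap (𝓞 F) F)) *ᵥ v) = c₂) :
    ∃ q : ℕ, q.Prime ∧ q ∣ H.index ∧ ReducibleMod ρ q :=
  complex_two_values ρ σ hρ hn H v w hv hw hv0 hw0 c₁ c₂ hc

end Pool.Agent.Results.MP_adb684_al.TwoValues
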